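import Pool.Agent.H60.CM.Basic

/-!
# Stable cmc surfaces spanning a circle (MP_d9d403_gt): row END, planes and spheres
-/

set_option autoImplicit false

open Set Function MeasureTheory Filter Topology
open scoped Manifold ContDiff Matrix
open Pool.Agent.H60.CM

namespace Pool.Agent.H99.CM

theorem end_bd (D : Dat) : ∃ p : D.S, D.x p 2 = 0 := by
  have h := D.cmc.circle.surjOn
  have h1 : (![D.r, 0, 0] : V3) ∈ circ D.r := by
    refine ⟨by simp, ?_⟩
    simp [dotProduct, Fin.sum_univ_three]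
    ring
  obtain ⟨p, _, hp⟩ := h h1
  exact ⟨p, by rw [hp]; simp⟩

theorem end_flat (Y : Sy) (h1 : T_LCS) (h2 : T_FIX)
    (hd : ∀ p i, dd (fun q => Y.x q 2) p i = 0) : ∀ p, Y.x p 2 = 0 := by
  have hfix := h2 Y.toDat Y.τ Y.A Y.inv Y.mirr Y.half
  have hA := Y.half.isOpen
  have hτc : Continuous Y.τ := Y.τ.continuous
  have hint : IsOpen Y.toDat.int := Y.toDat.int_open
  set S : Set Y.S := {p | p ∈ Y.toDat.int ∧ (p ∈ Y.A ∨ Y.τ p ∈ Y.A)} with hS
  have hSo : IsOpen S := hint.inter (hA.union (hA.preimage hτc))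
  have hdi : Dense Y.toDat.int := hfix.mono (fun p hp => hp.1)
  have hdt : Dense (Y.τ ⁻¹' Y.toDat.int) := hdi.preimage Y.τ.toHomeomorph.isOpenMap
  have hdd : Dense (S ∩ Y.τ ⁻¹' Y.toDat.int) := hfix.inter_of_isOpen_left hdt hSo
  obtain ⟨p0, hp0⟩ := end_bd Y.toDat
  have : Nonempty Y.S := ⟨p0⟩
  obtain ⟨a, ha⟩ : (Y.A ∩ Y.toDat.int).Nonempty := by
    obtain ⟨p, hp⟩ := hdd.nonempty
    rcases hp.1.2 with h | h
    · exact ⟨p, h, hp.1.1⟩
    · exact ⟨Y.τ p, h, hp.2⟩
  have hc : ∀ p ∈ Y.A ∩ Y.toDat.int, Y.x p 2 = Y.x a 2 := by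
    intro p hp
    exact h1 Y.toDat (fun q => Y.x q 2) (Y.A ∩ Y.toDat.int)
      (Dat.Sm.coord Y.toDat Y.toDat.smx 2) (hA.inter hint) inter_subset_right Y.conn
      (fun p _ i => hd p i) p hp a ha
  have hm : ∀ p, Y.x (Y.τ p) 2 = Y.x p 2 := by
    intro p
    rw [Y.mirr p]
    simp [mir]
  have hcont : Continuous (fun q => Y.x q 2) :=
    Dat.Sm.cont Y.toDat (Dat.Sm.coord Y.toDat Y.toDat.smx 2)
  have he : (fun q => Y.x q 2) = fun _ => Y.x a 2 := by
    apply hcont.ext_on hdd continuous_const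
    intro p hp
    rcases hp.1.2 with h | h
    · exact hc p ⟨h, hp.1.1⟩
    · have := hc (Y.τ p) ⟨h, hp.2⟩
      rw [hm p] at this
      exact this
  intro p
  have e1 : Y.x p 2 = Y.x a 2 := congrFun he p
  have e2 : Y.x p0 2 = Y.x a 2 := congrFun he p0
  rw [e1, ← e2]
  exact hp0

theorem pf_END (h1 : T_LCS) (h2 : T_FIX) : T_END := by
  intro Y z h
  have hu : ∀ p, Y.N p 0 * Y.N p 0 + Y.N p 1 * Y.N p 1 + Y.N p 2 * Y.N p 2 = 1 := by
    intro p
    have := Y.cmc.unit p
    simpa [dotProduct, Fin.sum_univ_three] using this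
  have h0 : ∀ p, Y.N p 0 + Y.H * Y.x p 0 = 0 := by
    intro p
    have := congrFun (h p) 0
    simpa using this
  have h1' : ∀ p, Y.N p 1 + Y.H * Y.x p 1 = 0 := by
    intro p
    have := congrFun (h p) 1
    simpa using this
  have h2' : ∀ p, Y.N p 2 + Y.H * Y.x p 2 = z := by
    intro p
    have := congrFun (h p) 2
    simpa using this
  by_cases hH : Y.H = 0
  · left
    refine ⟨hH, ?_⟩
    apply end_flat Y h1 h2
    intro p i
    have e1 := dd_coord (Dat.Sm.md Y.toDat Y.toDat.smx p) 2 i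
    rw [e1]
    have hn := Y.cmc.normal p i
    have n0 := h0 p
    have n1 := h1' p
    have n2 := h2' p
    rw [hH, zero_mul, add_zero] at n0 n1 n2
    have hz : z ≠ 0 := by
      intro hz
      have := hu p
      rw [n0, n1, n2, hz] at this
      norm_num at this
    simp only [dotProduct, Fin.sum_univ_three, n0, n1, n2, zero_mul, zero_add] at hn
    rcases mul_eq_zero.mp hn with h | h
    · exact absurd h hz
    · exact h
  · right
    refine ⟨hH, fun p => ?_⟩
    have e0 : Y.N p 0 = -(Y.H * Y.x p 0) := by linarith [h0 p]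
    have e1 : Y.N p 1 = -(Y.H * Y.x p 1) := by linarith [h1' p]
    have e2 : Y.N p 2 = z - Y.H * Y.x p 2 := by linarith [h2' p]
    have := hu p
    rw [e0, e1, e2] at this
    field_simp
    linarith

end Pool.Agent.H99.CM
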