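import Pool.Agent.H88.CM.Targets

/-! (INV) inverse of the identity plus a small bump (MP_43af95_an, compact manifolds).  helper99 -/

set_option autoImplicit false

open Set Function Topology Metric Filter
open scoped Manifold
open Pool.Agent.H88.CL Pool.Agent.H88.CM

namespace Pool.Agent.H99.CM

theorem pf_INV : T_INV := by
  intro d K σ β γ U hU hβ
  have hdU : Differentiable ℝ U := hU.c2.differentiable (by norm_num)
  have hlip : LipschitzWith (1 / 2) U := by
    refine lipschitzWith_of_nnnorm_fderiv_le hdU fun x => ?_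
    have h1 : ‖fderiv ℝ U x‖ ≤ 1 / 2 := (hU.b x).trans hβ
    rw [← NNReal.coe_le_coe]
    push_cast
    exact h1
  have hl : ∀ x x', ‖U x - U x'‖ ≤ 1 / 2 * ‖x - x'‖ := by
    intro x x'
    have h1 := hlip.dist_le_mul x x'
    rw [dist_eq_norm, dist_eq_norm] at h1
    push_cast at h1
    exact h1
  have hinj : ∀ x x', x + U x = x' + U x' → x = x' := by
    intro x x' h
    have h1 : x - x' = U x' - U x := by
      have h2 := congrArg (fun w => w - x' - U x) h
      have h3 : x + U x - x' - U x = x - x' := by abel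
      have h4 : x' + U x' - x' - U x = U x' - U x := by abel
      rw [h3, h4] at h2
      exact h2
    have h2 := hl x' x
    rw [← h1, norm_sub_rev x' x] at h2
    have h3 : ‖x - x'‖ = 0 := by
      have := norm_nonneg (x - x')
      linarith
    exact sub_eq_zero.1 (norm_eq_zero.1 h3)
  have hsurj : ∀ y, ∃ x, x + U x = y := by
    intro y
    have hc : ContractingWith (1 / 2) (fun x => y - U x) := by
      refine ⟨by
        rw [← NNReal.coe_lt_coe]
        push_cast
        norm_num, LipschitzWith.of_dist_le_mul fun x x' => ?_⟩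
      rw [dist_sub_left]
      exact hlip.dist_le_mul x x'
    have h1 := hc.fixedPoint_isFixedPt
    refine ⟨ContractingWith.fixedPoint (fun x => y - U x) hc, ?_⟩
    have h2 : y - U (ContractingWith.fixedPoint (fun x => y - U x) hc) =
      ContractingWith.fixedPoint (fun x => y - U x) hc := h1
    nth_rw 1 [← h2]
    abel
  choose H' hH' using hsurj
  have hli : ∀ x, H' (x + U x) = x := fun x => hinj _ _ (hH' _)
  have hc2H : ContDiff ℝ 2 H' := by
    rw [contDiff_iff_contDiffAt]
    intro y
    set a := H' y with ha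
    have hn : ‖-(fderiv ℝ U a)‖ < 1 := by
      rw [norm_neg]
      have := (hU.b a).trans hβ
      linarith
    let u := Units.oneSub (-(fderiv ℝ U a)) hn
    let e := ContinuousLinearEquiv.unitsEquiv ℝ (E d) u
    have he : (e : E d →L[ℝ] E d) = ContinuousLinearMap.id ℝ (E d) + fderiv ℝ U a := by
      ext1 v
      change (u : E d →L[ℝ] E d) v = _
      rw [Units.val_oneSub, sub_neg_eq_add]
      rfl
    have hc2 : ContDiffAt ℝ 2 (fun x => x + U x) a := (contDiff_id.add hU.c2).contDiffAt
    have hd : HasFDerivAt (fun x => x + U x) (e : E d →L[ℝ] E d) a := by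
      rw [he]
      exact (hasFDerivAt_id a).add (hdU a).hasFDerivAt
    have h2 : (2 : WithTop ℕ∞) ≠ 0 := by norm_num
    have h1 := hc2.to_localInverse hd h2
    have h3 : a + U a = y := hH' y
    have h4 : ∀ᶠ w in 𝓝 (a + U a), H' w = hc2.localInverse hd h2 w := by
      have h5 := (hc2.hasStrictFDerivAt' hd h2).eventually_right_inverse
      filter_upwards [h5] with w hw
      exact hinj _ _ ((hH' w).trans hw.symm)
    have h6 := h1.congr_of_eventuallyEq h4
    change ContDiffAt ℝ 2 H' (a + U a) at h6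
    rw [h3] at h6
    exact h6
  have hdH : Differentiable ℝ H' := hc2H.differentiable (by norm_num)
  -- the map u'
  have hu' : ∀ v, H' v - v = -U (H' v) := by
    intro v
    have h := hH' v
    nth_rw 2 [← h]
    abel
  -- derivative identity
  have hD : ∀ v w, fderiv ℝ H' v w + fderiv ℝ U (H' v) (fderiv ℝ H' v w) = w := by
    intro v w
    have h1 : HasFDerivAt (fun y => H' y + U (H' y))
        (fderiv ℝ H' v + (fderiv ℝ U (H' v)).comp (fderiv ℝ H' v)) v :=
      (hdH v).hasFDerivAt.add ((hdU (H' v)).hasFDerivAt.comp v (hdH v).hasFDerivAt)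
    have h2 : (fun y => H' y + U (H' y)) = id := by
      funext y
      exact hH' y
    rw [h2] at h1
    have h3 := h1.unique (hasFDerivAt_id v)
    have h4 := congrArg (fun A : E d →L[ℝ] E d => A w) h3
    simpa using h4
  have hBn : ∀ v y, ‖fderiv ℝ U v y‖ ≤ 1 / 2 * ‖y‖ := by
    intro v y
    refine ((fderiv ℝ U v).le_opNorm y).trans ?_
    exact mul_le_mul_of_nonneg_right ((hU.b v).trans hβ) (norm_nonneg _)
  have hlow : ∀ v y, ‖y‖ ≤ 2 * ‖y + fderiv ℝ U v y‖ := by
    intro v y
    have h1 : ‖y‖ ≤ ‖y + fderiv ℝ U v y‖ + ‖fderiv ℝ U v y‖ := by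
      have h2 := norm_sub_le (y + fderiv ℝ U v y) (fderiv ℝ U v y)
      rwa [add_sub_cancel_right] at h2
    have := hBn v y
    linarith
  have hDn : ∀ v w, ‖fderiv ℝ H' v w‖ ≤ 2 * ‖w‖ := by
    intro v w
    have h1 := hlow (H' v) (fderiv ℝ H' v w)
    rwa [hD v w] at h1
  have hHl : ∀ v w, ‖H' v - H' w‖ ≤ 2 * ‖v - w‖ := by
    intro v w
    have h1 : H' v - H' w = (v - w) - (U (H' v) - U (H' w)) := by
      have e1 := hu' v
      have e2 := hu' w
      have : H' v - H' w = (H' v - v) - (H' w - w) + (v - w) := by abel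
      rw [this, e1, e2]
      abel
    have h2 := norm_sub_le (v - w) (U (H' v) - U (H' w))
    rw [← h1] at h2
    have h3 := hl (H' v) (H' w)
    linarith
  have hfd : ∀ v, fderiv ℝ (fun v => H' v - v) v =
      fderiv ℝ H' v - ContinuousLinearMap.id ℝ (E d) := by
    intro v
    exact ((hdH v).hasFDerivAt.sub (hasFDerivAt_id v)).fderiv
  refine ⟨fun v => H' v - v, ⟨?_, ?_, ?_, ?_, ?_⟩, ?_, ?_⟩
  · exact hc2H.sub contDiff_id
  · intro v hv
    by_contra hK
    apply hv
    have h0 : U v = 0 := by
      by_contra h0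
      exact hK (hU.sup v h0)
    have h1 := hli v
    rw [h0, add_zero] at h1
    show H' v - v = 0
    rw [h1, sub_self]
  · intro v
    show ‖H' v - v‖ ≤ σ
    rw [hu' v, norm_neg]
    exact hU.s _
  · intro v
    rw [hfd v]
    have hβ0 : 0 ≤ β := (norm_nonneg _).trans (hU.b v)
    refine ContinuousLinearMap.opNorm_le_bound _ (by linarith) fun w => ?_
    have h1 := hD v w
    have h2 : (fderiv ℝ H' v - ContinuousLinearMap.id ℝ (E d)) w =
        -(fderiv ℝ U (H' v) (fderiv ℝ H' v w)) := by
      show fderiv ℝ H' v w - w = _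
      nth_rw 2 [← h1]
      abel
    rw [h2, norm_neg]
    refine ((fderiv ℝ U (H' v)).le_opNorm _).trans ?_
    have h3 := mul_le_mul (hU.b (H' v)) (hDn v w) (norm_nonneg _) hβ0
    linarith
  · intro v w
    rcases eq_or_ne v w with rfl | hvw
    · simp
    · have hne : H' v ≠ H' w := by
        intro h
        apply hvw
        rw [← hH' v, ← hH' w, h]
      have hpos : 0 < ‖H' v - H' w‖ := norm_pos_iff.2 (sub_ne_zero.2 hne)
      have hγ : 0 ≤ γ := by
        have h1 := (norm_nonneg _).trans (hU.g (H' v) (H' w))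
        by_contra hneg
        push Not at hneg
        have := mul_neg_of_neg_of_pos hneg hpos
        linarith
      rw [hfd v, hfd w]
      have e0 : fderiv ℝ H' v - ContinuousLinearMap.id ℝ (E d) -
          (fderiv ℝ H' w - ContinuousLinearMap.id ℝ (E d)) = fderiv ℝ H' v - fderiv ℝ H' w := by
        abel
      rw [e0]
      refine ContinuousLinearMap.opNorm_le_bound _ (by positivity) fun x => ?_
      show ‖fderiv ℝ H' v x - fderiv ℝ H' w x‖ ≤ _
      have h1 := hlow (H' v) (fderiv ℝ H' v x - fderiv ℝ H' w x)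
      have h2 : fderiv ℝ H' v x - fderiv ℝ H' w x +
          fderiv ℝ U (H' v) (fderiv ℝ H' v x - fderiv ℝ H' w x) =
          (fderiv ℝ U (H' w) - fderiv ℝ U (H' v)) (fderiv ℝ H' w x) := by
        have e1 := hD v x
        have e2 := hD w x
        rw [map_sub]
        show _ = fderiv ℝ U (H' w) (fderiv ℝ H' w x) - fderiv ℝ U (H' v) (fderiv ℝ H' w x)
        have e3 : fderiv ℝ H' v x + fderiv ℝ U (H' v) (fderiv ℝ H' v x) =
            fderiv ℝ H' w x + fderiv ℝ U (H' w) (fderiv ℝ H' w x) := e1.trans e2.symm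
        have e4 : fderiv ℝ H' v x - fderiv ℝ H' w x +
          (fderiv ℝ U (H' v) (fderiv ℝ H' v x) - fderiv ℝ U (H' v) (fderiv ℝ H' w x)) =
          (fderiv ℝ H' v x + fderiv ℝ U (H' v) (fderiv ℝ H' v x)) - fderiv ℝ H' w x -
            fderiv ℝ U (H' v) (fderiv ℝ H' w x) := by abel
        rw [e4, e3]
        abel
      rw [h2] at h1
      have h3 : ‖(fderiv ℝ U (H' w) - fderiv ℝ U (H' v)) (fderiv ℝ H' w x)‖ ≤
          (γ * (2 * ‖v - w‖)) * (2 * ‖x‖) := by
        refine ((fderiv ℝ U (H' w) - fderiv ℝ U (H' v)).le_opNorm _).trans ?_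
        refine mul_le_mul ?_ (hDn w x) (norm_nonneg _) (by positivity)
        refine (hU.g (H' w) (H' v)).trans ?_
        rw [norm_sub_rev (H' w) (H' v)]
        exact mul_le_mul_of_nonneg_left (hHl v w) hγ
      nlinarith
  · intro v
    show (v + U v) + (H' (v + U v) - (v + U v)) = v
    rw [hli v]
    abel
  · intro v
    have e : v + (H' v - v) = H' v := by abel
    show v + (H' v - v) + U (v + (H' v - v)) = v
    rw [e]
    exact hH' v

end Pool.Agent.H99.CM
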