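import Pool.Agent.H88.CM.Targets

/-! (LOC) uniform bounds in the charts of a good atlas (MP_43af95_an, compact manifolds).
helper99 -/

set_option autoImplicit false

open Set Function Topology Metric Filter
open scoped Manifold
open Pool.Agent.H88.CL Pool.Agent.H88.CM

namespace Pool.Agent.H99.CM

section

variable {d : ℕ} {M : Type} [TopologicalSpace M] [ChartedSpace (E d) M]

/-- the domain of the local expression -/
def dom (φ ψ : Ch d M) (f : M → M) : Set (E d) := φ.target ∩ φ.symm ⁻¹' (f ⁻¹' ψ.source)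

omit [ChartedSpace (E d) M] in
theorem dom_open (φ ψ : Ch d M) {f : M → M} (hf : Continuous f) : IsOpen (dom φ ψ f) :=
  φ.isOpen_inter_preimage_symm (ψ.open_source.preimage hf)

theorem rep_cd (φ ψ : Ch d M) (hφ : φ ∈ MA d M) (hψ : ψ ∈ MA d M) {f : M → M}
    (hf : ContMDiff 𝓘(ℝ, E d) 𝓘(ℝ, E d) 2 f) : ContDiffOn ℝ 2 (rep φ ψ f) (dom φ ψ f) := by
  have a : ContMDiffOn 𝓘(ℝ, E d) 𝓘(ℝ, E d) 2 φ.symm φ.target :=
    contMDiffOn_symm_of_mem_maximalAtlas hφ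
  have b : ContMDiffOn 𝓘(ℝ, E d) 𝓘(ℝ, E d) 2 (f ∘ φ.symm) φ.target := hf.comp_contMDiffOn a
  have c : ContMDiffOn 𝓘(ℝ, E d) 𝓘(ℝ, E d) 2 ψ ψ.source := contMDiffOn_of_mem_maximalAtlas hψ
  have e : ContMDiffOn 𝓘(ℝ, E d) 𝓘(ℝ, E d) 2 (ψ ∘ (f ∘ φ.symm)) (dom φ ψ f) :=
    c.comp (b.mono inter_subset_left) (fun w hw => hw.2)
  exact contMDiffOn_iff_contDiffOn.mp e

theorem rep_df (φ ψ : Ch d M) (hφ : φ ∈ MA d M) (hψ : ψ ∈ MA d M) {f : M → M}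
    (hf : ContMDiff 𝓘(ℝ, E d) 𝓘(ℝ, E d) 2 f) {w : E d} (hw : w ∈ dom φ ψ f) :
    DifferentiableAt ℝ (rep φ ψ f) w :=
  ((rep_cd φ ψ hφ hψ hf).contDiffAt ((dom_open φ ψ hf.continuous).mem_nhds hw)).differentiableAt
    (by norm_num)

theorem loc_inv (φ ψ : Ch d M) (hφ : φ ∈ MA d M) (hψ : ψ ∈ MA d M) {f f' : M → M}
    (hf : ContMDiff 𝓘(ℝ, E d) 𝓘(ℝ, E d) 2 f) (hf' : ContMDiff 𝓘(ℝ, E d) 𝓘(ℝ, E d) 2 f')
    (hl : ∀ x, f' (f x) = x) (y : M) (hy : y ∈ φ.source) (hfy : f y ∈ ψ.source) (w : E d) :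
    fderiv ℝ (rep ψ φ f') (ψ (f y)) (fderiv ℝ (rep φ ψ f) (φ y) w) = w := by
  have h1 : φ y ∈ dom φ ψ f := by
    refine ⟨φ.map_source hy, ?_⟩
    show f (φ.symm (φ y)) ∈ ψ.source
    rw [φ.left_inv hy]
    exact hfy
  have h2 : ψ (f y) ∈ dom ψ φ f' := by
    refine ⟨ψ.map_source hfy, ?_⟩
    show f' (ψ.symm (ψ (f y))) ∈ φ.source
    rw [ψ.left_inv hfy, hl]
    exact hy
  have h3 : rep φ ψ f (φ y) = ψ (f y) := by
    show ψ (f (φ.symm (φ y))) = _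
    rw [φ.left_inv hy]
  have d1 := (rep_df φ ψ hφ hψ hf h1).hasFDerivAt
  have d2 := (rep_df ψ φ hψ hφ hf' h2).hasFDerivAt
  rw [← h3] at d2
  have d3 := d2.comp (φ y) d1
  have h4 : (rep ψ φ f' ∘ rep φ ψ f) =ᶠ[𝓝 (φ y)] id := by
    filter_upwards [(dom_open φ ψ hf.continuous).mem_nhds h1] with v hv
    show φ (f' (ψ.symm (ψ (f (φ.symm v))))) = v
    rw [ψ.left_inv hv.2, hl, φ.right_inv hv.1]
  have d4 : HasFDerivAt (rep ψ φ f' ∘ rep φ ψ f) (ContinuousLinearMap.id ℝ (E d)) (φ y) :=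
    (hasFDerivAt_id (𝕜 := ℝ) (φ y)).congr_of_eventuallyEq h4
  have h5 := d3.unique d4
  have h6 := congrArg (fun B : E d →L[ℝ] E d => B w) h5
  rw [h3] at h6
  exact h6

theorem fin_lo {ι : Type} [Finite ι] (e : ι → ℝ) (he : ∀ k, 0 < e k) :
    ∃ e0 : ℝ, 0 < e0 ∧ ∀ k, e0 ≤ e k := by
  rcases isEmpty_or_nonempty ι with h | h
  · exact ⟨1, one_pos, fun k => h.elim k⟩
  · obtain ⟨k0, hk0⟩ := Finite.exists_min e
    exact ⟨e k0, he k0, hk0⟩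

theorem fin_hi {ι : Type} [Finite ι] (e : ι → ℝ) : ∃ e0 : ℝ, 1 ≤ e0 ∧ ∀ k, e k ≤ e0 := by
  rcases isEmpty_or_nonempty ι with h | h
  · exact ⟨1, le_refl _, fun k => h.elim k⟩
  · obtain ⟨k0, hk0⟩ := Finite.exists_max e
    exact ⟨max 1 (e k0), le_max_left _ _, fun k => (hk0 k).trans (le_max_right _ _)⟩

theorem loc_one (h : T_TRE) [T2Space M] (φ ψ : Ch d M) (hφ : φ ∈ MA d M) (hψ : ψ ∈ MA d M)
    {f : M → M} (hf : ContMDiff 𝓘(ℝ, E d) 𝓘(ℝ, E d) 2 f) (K1 K2 : Set (E d))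
    (hK1 : IsCompact K1) (hK2 : IsCompact K2) (hs1 : K1 ⊆ φ.target) (hs2 : K2 ⊆ ψ.target) :
    ∃ r L : ℝ, 0 < r ∧ 1 ≤ L ∧ ∀ y, y ∈ φ.source → φ y ∈ K1 → f y ∈ ψ.source → ψ (f y) ∈ K2 →
      closedBall (φ y) r ⊆ dom φ ψ f ∧
      (∀ x ∈ closedBall (φ y) r, ‖fderiv ℝ (rep φ ψ f) x‖ ≤ L) ∧
      ∀ x ∈ closedBall (φ y) r, ∀ x' ∈ closedBall (φ y) r,
        ‖fderiv ℝ (rep φ ψ f) x - fderiv ℝ (rep φ ψ f) x'‖ ≤ L * ‖x - x'‖ := by
  set K : Set (E d) := K1 ∩ (f ∘ φ.symm) ⁻¹' (ψ.symm '' K2) with hK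
  have hcl2 : IsClosed (ψ.symm '' K2) :=
    (hK2.image_of_continuousOn (ψ.continuousOn_symm.mono hs2)).isClosed
  have hco : ContinuousOn (f ∘ φ.symm) K1 :=
    hf.continuous.comp_continuousOn (φ.continuousOn_symm.mono hs1)
  have hKcl : IsClosed K := hco.preimage_isClosed_of_isClosed hK1.isClosed hcl2
  have hKc : IsCompact K := hK1.of_isClosed_subset hKcl inter_subset_left
  have hKd : K ⊆ dom φ ψ f := by
    rintro w ⟨hw1, hw2⟩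
    refine ⟨hs1 hw1, ?_⟩
    obtain ⟨v, hv, hve⟩ := hw2
    show f (φ.symm w) ∈ ψ.source
    have he : ψ.symm v = f (φ.symm w) := hve
    rw [← he]
    exact ψ.map_target (hs2 hv)
  obtain ⟨r, L, hr, hL, hb⟩ := h d (dom φ ψ f) K (rep φ ψ f) (dom_open φ ψ hf.continuous) hKc hKd
    (rep_cd φ ψ hφ hψ hf)
  refine ⟨r, L, hr, hL, fun y hy1 hy2 hy3 hy4 => ?_⟩
  have hyK : φ y ∈ K := by
    refine ⟨hy2, ψ (f y), hy4, ?_⟩
    show ψ.symm (ψ (f y)) = f (φ.symm (φ y))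
    rw [ψ.left_inv hy3, φ.left_inv hy1]
  exact hb _ hyK

end

theorem pf_LOC (h : T_TRE) : T_LOC := by
  intro d M _ _ _ _ _ n A Kh r hGA f f' hf
  have hA := hGA.atl
  choose ra La hra hLa hpa using fun i j : Fin n =>
    loc_one h (A i) (A j) (hA i) (hA j) hf.c (Kh i) (Kh j) (hGA.cpt i) (hGA.cpt j) (hGA.sub i)
      (hGA.sub j)
  choose rb Lb hrb hLb hpb using fun i j : Fin n =>
    loc_one h (A i) (A j) (hA i) (hA j) hf.c' (Kh i) (Kh j) (hGA.cpt i) (hGA.cpt j) (hGA.sub i)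
      (hGA.sub j)
  obtain ⟨r0, hr0, hr1⟩ := fin_lo (fun p : Fin n × Fin n => ra p.1 p.2) (fun p => hra _ _)
  obtain ⟨L1, hL1, hL1'⟩ := fin_hi (fun p : Fin n × Fin n => La p.1 p.2)
  obtain ⟨L2, hL2, hL2'⟩ := fin_hi (fun p : Fin n × Fin n => Lb p.1 p.2)
  refine ⟨min r0 r, max L1 L2, lt_min hr0 hGA.rpos, min_le_right _ _, le_max_of_le_left hL1, ?_⟩
  intro i j y hy1 hy2 hy3 hy4
  obtain ⟨hp1, hp2, hp3⟩ := hpa i j y hy1 hy2 hy3 hy4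
  have hsub : ball (A i y) (min r0 r) ⊆ closedBall (A i y) (ra i j) :=
    (ball_subset_ball ((min_le_left _ _).trans (hr1 (i, j)))).trans ball_subset_closedBall
  have hLij : La i j ≤ max L1 L2 := (hL1' (i, j)).trans (le_max_left _ _)
  refine ⟨(rep_cd (A i) (A j) (hA i) (hA j) hf.c).mono (hsub.trans hp1), ?_, ?_, ?_, ?_⟩
  · intro w hw
    have := hp1 (hsub hw)
    exact ⟨this.1, this.2⟩
  · intro w hw
    exact (hp2 w (hsub hw)).trans hLij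
  · intro w hw w' hw'
    exact (hp3 w (hsub hw) w' (hsub hw')).trans
      (mul_le_mul_of_nonneg_right hLij (norm_nonneg _))
  · refine ⟨fderiv ℝ (rep (A j) (A i) f') (A j (f y)), ?_, ?_, ?_⟩
    · obtain ⟨_, hq2, _⟩ := hpb j i (f y) hy3 hy4 (by rw [hf.li]; exact hy1)
        (by rw [hf.li]; exact hy2)
      refine (hq2 _ (mem_closedBall_self (hrb j i).le)).trans ?_
      exact (hL2' (j, i)).trans (le_max_right _ _)
    · intro w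
      exact loc_inv (A i) (A j) (hA i) (hA j) hf.c hf.c' hf.li y hy1 hy3 w
    · intro w
      have := loc_inv (A j) (A i) (hA j) (hA i) hf.c' hf.c hf.ri (f y) hy3
        (by rw [hf.li]; exact hy1) w
      rwa [hf.li] at this

end Pool.Agent.H99.CM
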