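import Pool.Agent.H88.CM.Targets

/-! (CL1) closeness of one small bump (MP_43af95_an, compact manifolds).  helper99 -/

set_option autoImplicit false

open Set Function Topology Metric Filter
open scoped Manifold
open Pool.Agent.H88.CL Pool.Agent.H88.CM

namespace Pool.Agent.H99.CM

theorem cl1_mem {d : ℕ} {M : Type} [TopologicalSpace M] {φ : Ch d M} {u : E d → E d} {y : M}
    (h : y ∈ φ.source) : bmp φ u y = φ.symm (φ y + u (φ y)) := by
  unfold bmp
  rw [if_pos h]

theorem cl1_notMem {d : ℕ} {M : Type} [TopologicalSpace M] {φ : Ch d M} {u : E d → E d} {y : M}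
    (h : y ∉ φ.source) : bmp φ u y = y := by
  unfold bmp
  rw [if_neg h]

theorem pf_CL1 (h1 : T_CLM) (h2 : T_ATM) (h3 : Pool.Agent.H88.CL.T_OMB) : T_CL1 := by
  intro d M _ _ _ _ _ κ Kκ hκ hKc hKt f f' hf φ ψ K hT ω η hω hη
  obtain ⟨n, A, Kh, r, i0, hGA, rfl, rfl⟩ := h2 d M κ Kκ hκ hKc hKt
  obtain ⟨e1, he1, hcl⟩ := h1 d M n A Kh r hGA f f' hf φ ψ K hT ω η hω hη
  obtain ⟨r0, hr0, hr⟩ := h3 ω hω (1 / e1)
  have hw : 0 < ω (1 / 2) := hω.pos _ (by norm_num)
  set e : ℝ := min (min (1 / 2) (e1 / 2)) (min r0 (e1 * ω (1 / 2))) with he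
  have h4 : e ≤ 1 / 2 := (min_le_left _ _).trans (min_le_left _ _)
  have h5 : e ≤ e1 / 2 := (min_le_left _ _).trans (min_le_right _ _)
  have h6 : e ≤ r0 := (min_le_right _ _).trans (min_le_left _ _)
  have h7 : e ≤ e1 * ω (1 / 2) := (min_le_right _ _).trans (min_le_right _ _)
  have h0 : 0 < e := lt_min (lt_min (by norm_num) (by linarith)) (lt_min hr0 (by positivity))
  have hS : Sml ω e1 e e e := by
    refine ⟨h0, h0, h0.le, h4, by linarith, ?_, ?_⟩
    · have h8 := hr e h0 h6
      have h9 := mul_le_mul_of_nonneg_left h8 he1.le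
      have h10 : e1 * (1 / e1 * e) = e := by field_simp
      rwa [h10] at h9
    · have h8 : e / (e + e) = 1 / 2 := by
        field_simp
        norm_num
      rw [h8]
      exact h7
  refine ⟨e, h0, h4, fun u hu => ?_⟩
  have hclosed : IsClosed ((A i0).symm '' Kh i0) :=
    (hKc.image_of_continuousOn ((A i0).continuousOn_symm.mono hKt)).isClosed
  have hMB : MB d n A Kh e e e 1 (fun _ => i0) (fun _ => u) (fun _ => (A i0).symm '' Kh i0)
      (bmp (A i0) u) := by
    refine ⟨fun l _ => hu, fun l _ v hv => ⟨v, hu.sup v hv, rfl⟩, fun l _ => hclosed,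
      fun l _ => Subset.rfl, ?_, fun l _ y _ => rfl, ?_⟩
    · intro l hl j hj hne
      exact absurd (by omega : l = j) hne
    · intro y hy
      by_cases hs : y ∈ (A i0).source
      · rw [cl1_mem hs]
        have hu0 : u ((A i0) y) = 0 := by
          by_contra hne
          exact hy 0 (by norm_num) ⟨(A i0) y, hu.sup _ hne, (A i0).left_inv hs⟩
        rw [hu0, add_zero, (A i0).left_inv hs]
      · exact cl1_notMem hs
  exact hcl e e e 1 (fun _ => i0) (fun _ => u) _ _ hMB hS

end Pool.Agent.H99.CM
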